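import Pool.Agent.R269.StopBase

/-!
The closed unit ball of the stopping time space, with its relative weak topology, has a countable
pi-base.
-/

set_option autoImplicit false

open Pool.Agent.R269.Stop

namespace Pool.Agent.Results.MP_66f42e_an.CountablePiBase

/-- The closed unit ball of the (real) stopping time space on the infinite binary tree admits a
countable weak pi-base. -/
theorem result : CountableWeakPiBase StopSpace := countable_pi_base

end Pool.Agent.Results.MP_66f42e_an.CountablePiBase
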